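import Pool.Agent.helper24.SG.SpecD

set_option autoImplicit false

open MeasureTheory Set Metric Filter Topology
open scoped ENNReal NNReal ComplexConjugate

namespace Pool.Agent.SG

theorem D03 (h2 : D02_stmt) : D03_stmt := by
  classical
  intro q V hq hchi N
  obtain ⟨-, hpar, -, -⟩ := h2 q hq
  induction N with
  | zero =>
    intro J hJ
    have hJ0 : J = ∅ := Finset.subset_empty.mp (by simpa using hJ)
    subst hJ0
    have : (meet q 0 (⋂ j ∈ (∅ : Finset ℕ), V j)).card ≤ 1 := by
      calc _ ≤ (Finset.range (q ^ 0)).card := Finset.card_filter_le _ _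
        _ = 1 := by simp
    simpa using this
  | succ N ih =>
    intro J hJ
    set J' := J.erase N with hJ'
    have hJ'N : J' ⊆ Finset.range N := by
      intro j hj
      rw [hJ', Finset.mem_erase] at hj
      have := Finset.mem_range.mp (hJ hj.2)
      rw [Finset.mem_range]
      omega
    have ih' := ih J' hJ'N
    set P := meet q N (⋂ j ∈ J', V j) with hP
    set Q := meet q (N + 1) (⋂ j ∈ J, V j) with hQ
    have hmem : ∀ k ∈ Q, k < q ^ (N + 1) ∧ (arcq q (N + 1) k ∩ ⋂ j ∈ J, V j).Nonempty := by
      intro k hk
      rw [hQ, meet, Finset.mem_filter, Finset.mem_range] at hk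
      exact hk
    have hmap : ∀ k ∈ Q, k / q ∈ P := by
      intro k hk
      obtain ⟨h1, ξ, hξ1, hξ2⟩ := hmem k hk
      rw [hP, meet, Finset.mem_filter, Finset.mem_range]
      refine ⟨?_, ξ, hpar N k hξ1, ?_⟩
      · rw [Nat.div_lt_iff_lt_mul (by omega), ← pow_succ]
        exact h1
      · rw [mem_iInter₂] at hξ2 ⊢
        intro j hj
        exact hξ2 j (Finset.mem_of_mem_erase hj)
    have hcard : Q.card = ∑ k' ∈ P, (Q.filter fun k => k / q = k').card :=
      Finset.card_eq_sum_card_fiberwise (fun k hk => hmap k hk)
    have hinj : ∀ k', Set.InjOn (fun k => k % q) (Q.filter fun k => k / q = k' : Finset ℕ) := by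
      intro k' a ha b hb hab
      simp only [Finset.coe_filter, Set.mem_ofPred_eq] at ha hb
      simp only at hab
      rw [← Nat.div_add_mod a q, ← Nat.div_add_mod b q, ha.2, hb.2, hab]
    by_cases hN : N ∈ J
    · have hfib : ∀ k' ∈ P, 8 * (Q.filter fun k => k / q = k').card ≤ q := by
        intro k' hk'
        have hk'lt : k' < q ^ N := by
          rw [hP, meet, Finset.mem_filter, Finset.mem_range] at hk'
          exact hk'.1
        refine le_trans ?_ (hchi N k' hk'lt)
        refine Nat.mul_le_mul_left _ ?_
        refine Finset.card_le_card_of_injOn (fun k => k % q) ?_ (hinj k')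
        intro k hk
        simp only [Finset.coe_filter, Set.mem_ofPred_eq] at hk
        obtain ⟨h1, ξ, hξ1, hξ2⟩ := hmem k hk.1
        rw [Finset.mem_coe, chi, Finset.mem_filter, Finset.mem_range]
        refine ⟨Nat.mod_lt _ (by omega), ξ, ?_, ?_⟩
        · have e : q * k' + k % q = k := by
            rw [← hk.2]
            exact Nat.div_add_mod k q
          rw [e]
          exact hξ1
        · rw [mem_iInter₂] at hξ2
          exact hξ2 N hN
      have hJc : J.card = J'.card + 1 := by
        rw [hJ', Finset.card_erase_add_one hN]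
      calc 8 ^ J.card * Q.card = 8 ^ J'.card * ∑ k' ∈ P, 8 * (Q.filter fun k => k / q = k').card := by
            rw [hJc, pow_succ, hcard, Finset.mul_sum, Finset.mul_sum]
            exact Finset.sum_congr rfl fun _ _ => by ring
        _ ≤ 8 ^ J'.card * ∑ _k' ∈ P, q := by
            gcongr with k' hk'
            exact hfib k' hk'
        _ = (8 ^ J'.card * P.card) * q := by
            rw [Finset.sum_const, smul_eq_mul]
            ring
        _ ≤ q ^ N * q := Nat.mul_le_mul_right _ ih'
        _ = q ^ (N + 1) := (pow_succ q N).symm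
    · have hfib : ∀ k' ∈ P, (Q.filter fun k => k / q = k').card ≤ q := by
        intro k' hk'
        calc _ ≤ (Finset.range q).card := by
              refine Finset.card_le_card_of_injOn (fun k => k % q) ?_ (hinj k')
              intro k hk
              rw [Finset.mem_coe, Finset.mem_range]
              exact Nat.mod_lt _ (by omega)
          _ = q := Finset.card_range q
      have hJc : J' = J := Finset.erase_eq_of_notMem hN
      calc 8 ^ J.card * Q.card = 8 ^ J'.card * ∑ k' ∈ P, (Q.filter fun k => k / q = k').card := by
            rw [hJc, hcard]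
        _ ≤ 8 ^ J'.card * ∑ _k' ∈ P, q := by
            gcongr with k' hk'
            exact hfib k' hk'
        _ = (8 ^ J'.card * P.card) * q := by
            rw [Finset.sum_const, smul_eq_mul]
            ring
        _ ≤ q ^ N * q := Nat.mul_le_mul_right _ ih'
        _ = q ^ (N + 1) := (pow_succ q N).symm

end Pool.Agent.SG
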