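import Pool.Agent.helper3.SG.SpecS

set_option autoImplicit false

open MeasureTheory Set Metric Filter Topology
open scoped ENNReal NNReal ComplexConjugate commutatorElement

namespace Pool.Agent.SG

lemma S22_cyc_meas (a b : ℂ) : Measurable (cyc a b) := by
  unfold cyc
  refine Measurable.const_mul ?_ _
  refine Real.measurable_log.comp ?_
  exact (Continuous.norm (by fun_prop)).measurable

lemma S22_ae {ν : Measure ℂ} (hs : ν circᶜ = 0) : ∀ᵐ ξ ∂ν, ‖ξ‖ = 1 := by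
  rw [ae_iff]
  refine measure_mono_null ?_ hs
  intro ξ hξ hc
  apply hξ
  simpa [circ] using hc

lemma S22_int (h17 : S17_stmt) {ν : Measure ℂ} [IsProbabilityMeasure ν] (hs : ν circᶜ = 0)
    {a b : ℂ} (hab : ‖a‖ ^ 2 - ‖b‖ ^ 2 = 1) : Integrable (cyc a b) ν := by
  refine Integrable.of_bound (S22_cyc_meas a b).aestronglyMeasurable (2 * Real.log (2 * ‖a‖)) ?_
  filter_upwards [S22_ae hs] with ξ hξ
  rw [Real.norm_eq_abs]
  exact h17.1 a b ξ hab hξ

theorem S22 (h2 : S02_stmt) (h17 : S17_stmt) (h21 : S21_stmt) : S22_stmt := by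
  intro Γ _ A ν hν γ δ B hB hγ hδ
  have := hν.prob
  obtain ⟨ha1, -, -, -, -, hkk, hprod, -⟩ := h2 Γ A
  set x := A.pt γ with hx
  set y := A.pt δ with hy
  have hkx : 1 - ‖x‖ ^ 2 = 1 / ‖A.a γ‖ ^ 2 := hkk γ
  have hky : 1 - ‖y‖ ^ 2 = 1 / ‖A.a δ‖ ^ 2 := hkk δ
  have haγ : 0 < ‖A.a γ‖ := by linarith [ha1 γ]
  have haδ : 0 < ‖A.a δ‖ := by linarith [ha1 δ]
  have hx1 : ‖x‖ < 1 := by
    have h : 0 < 1 / ‖A.a γ‖ ^ 2 := by positivity
    nlinarith [norm_nonneg x]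
  have hy1 : ‖y‖ < 1 := by
    have h : 0 < 1 / ‖A.a δ‖ ^ 2 := by positivity
    nlinarith [norm_nonneg y]
  have hLγ : -Real.log (1 - ‖x‖ ^ 2) = A.L γ := by
    rw [hkx, one_div, Real.log_inv, Real.log_pow, DiscRep.L]
    push_cast
    ring
  have hLδ : -Real.log (1 - ‖y‖ ^ 2) = A.L δ := by
    rw [hky, one_div, Real.log_inv, Real.log_pow, DiscRep.L]
    push_cast
    ring
  have hxy : 0 < ‖1 - conj x * y‖ := by
    rw [norm_pos_iff, sub_ne_zero]
    intro h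
    have h1 : ‖conj x * y‖ = 1 := by rw [← h]; simp
    rw [norm_mul, RCLike.norm_conj] at h1
    nlinarith [norm_nonneg x, norm_nonneg y]
  have hgp : gp A.L γ δ = -Real.log ‖1 - conj x * y‖ := by
    have h1 : A.L (γ⁻¹ * δ) = 2 * Real.log ‖1 - conj x * y‖ + A.L γ + A.L δ := by
      rw [DiscRep.L, hprod γ δ, Real.log_mul (by positivity) haδ.ne', Real.log_mul hxy.ne' haγ.ne',
        DiscRep.L, DiscRep.L]
      ring
    rw [gp, h1]
    ring
  set m := min (gp A.L γ δ) (min (A.L γ - gp A.L γ δ) (A.L δ - gp A.L γ δ)) with hm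
  rcases le_or_gt m 0 with h0 | h0
  · linarith
  have hm1 : m ≤ gp A.L γ δ := min_le_left _ _
  have hm2 : m ≤ A.L γ - gp A.L γ δ := (min_le_right _ _).trans (min_le_left _ _)
  have hm3 : m ≤ A.L δ - gp A.L γ δ := (min_le_right _ _).trans (min_le_right _ _)
  obtain ⟨z, c, d, hz, hc, hd, hcd, hle⟩ := h21 x y m hx1 hy1 h0 (by rw [← hgp]; exact hm1)
    (by rw [hLγ]; linarith) (by rw [hLδ]; linarith)
  obtain ⟨a, b, hab, hbus⟩ := h17.2.2.2.1 z hz
  have hbx := h17.2.2.2.2 Γ A γ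
  have hby := h17.2.2.2.2 Γ A δ
  have hae := S22_ae hν.supp
  have hI0 := S22_int h17 hν.supp hab
  have hIx := S22_int h17 hν.supp (A.norm_eq γ⁻¹)
  have hIy := S22_int h17 hν.supp (A.norm_eq δ⁻¹)
  have key : ∫ ξ, (cyc a b ξ + (m / 3 - 5)) ∂ν ≤
      ∫ ξ, (c * cyc (A.a γ⁻¹) (A.b γ⁻¹) ξ + d * cyc (A.a δ⁻¹) (A.b δ⁻¹) ξ) ∂ν := by
    refine integral_mono_ae (hI0.add (integrable_const _)) ((hIx.const_mul c).add (hIy.const_mul d)) ?_
    filter_upwards [hae] with ξ hξ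
    have h1 := hle ξ hξ
    rw [hbus ξ hξ, hx, hy, hbx ξ hξ, hby ξ hξ] at h1
    linarith
  rw [integral_add hI0 (integrable_const _), integral_add (hIx.const_mul c) (hIy.const_mul d),
    integral_const_mul, integral_const_mul, integral_const] at key
  have h1 := hν.low a b hab
  unfold Phi at h1 hγ hδ
  simp only [probReal_univ, smul_eq_mul, one_mul] at key
  have h3 : c * ∫ ξ, cyc (A.a γ⁻¹) (A.b γ⁻¹) ξ ∂ν ≤ c * B := mul_le_mul_of_nonneg_left hγ hc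
  have h4 : d * ∫ ξ, cyc (A.a δ⁻¹) (A.b δ⁻¹) ξ ∂ν ≤ d * B := mul_le_mul_of_nonneg_left hδ hd
  have h5 : c * B + d * B ≤ B := by nlinarith
  linarith

end Pool.Agent.SG
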