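import Pool.Agent.helper17.SG.SpecP
import Pool.Agent.helper17.SG.SpecB

/-!
# SpecD: mean porosity (part D of project sg:, MP_2b8aea_gt)

If the stationary measure has `7/8` of its mass in a finite union of balls with small total radius,
then it gives mass at least `1/2` to a Borel set of Hausdorff dimension at most `δ < 1`, where `δ`
depends only on: a lower bound `κ` for `kk` on the support of the walk, the counting function of the
group, the scale `ρ` at which balls have mass at most `1/8`, and the number `m` of balls (`D11`).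

IDEA. `V_j` = union of the sets `act w '' (U ∩ good part of the circle for w)` over all `w` with
`kk w` of size `t_j = q^(-j)/2`, where `U` is the union of the balls. By the exit decomposition
`ν = ∑ π w • nux w` the mass of `V_j` is at least `3/4`, for every `j`. On the other hand every
`q`-adic arc of generation `j` has at most `q/8` children which meet `V_j`. So the set of the points
which are in `V_j` for at least half of the `j < N` has mass `≥ 1/2`, and it is covered by at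
most `2^N q^N 8^(-N/2) = (q/√2)^N` arcs of generation `N`.

RULES. File `Pool/Agent/<seat>/SG/D01.lean`, `import Pool.Agent.helper24.SG.SpecD`,
`set_option autoImplicit false`, `open MeasureTheory Set Metric Filter Topology`,
`open scoped ENNReal NNReal ComplexConjugate`, `namespace Pool.Agent.SG`,
`theorem D05 (h1 : D01_stmt) (h3 : D03_stmt) ... : D05_stmt`. Uses as listed; more allowed, no circles.
-/

set_option autoImplicit false

open MeasureTheory Set Metric Filter Topology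
open scoped ENNReal NNReal ComplexConjugate

namespace Pool.Agent.SG

/-! ## Definitions -/

/-- the `k`-th arc of generation `n` (length `2π / q ^ n`); for `k < q ^ n` they partition the circle. -/
noncomputable def arcq (q n k : ℕ) : Set ℂ :=
  (fun x : ℝ => Complex.exp (2 * Real.pi * x * Complex.I)) ''
    Ico ((k : ℝ) / (q : ℝ) ^ n) (((k : ℝ) + 1) / (q : ℝ) ^ n)

open Classical in
/-- the indices of the arcs of generation `n` which meet `E`. -/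
noncomputable def meet (q n : ℕ) (E : Set ℂ) : Finset ℕ :=
  (Finset.range (q ^ n)).filter fun k => (arcq q n k ∩ E).Nonempty

open Classical in
/-- the children of the `k`-th arc of generation `n` which meet `E`. -/
noncomputable def chi (q n k : ℕ) (E : Set ℂ) : Finset ℕ :=
  (Finset.range q).filter fun i => (arcq q (n + 1) (q * k + i) ∩ E).Nonempty

open Classical in
/-- the points of the circle which are in `V j` for at least half of the `j < N`. -/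
def half (V : ℕ → Set ℂ) (N : ℕ) : Set ℂ :=
  {ξ | ξ ∈ circ ∧ N ≤ 2 * ((Finset.range N).filter fun j => ξ ∈ V j).card}

/-- the upper limit of a sequence of sets. -/
def lsup (S : ℕ → Set ℂ) : Set ℂ := ⋂ n : ℕ, ⋃ N : ℕ, ⋃ _ : n ≤ N, S N

/-- the exponent: `q ^ expo q = q / 2 ^ (1 / 4)`. -/
noncomputable def expo (q : ℕ) : ℝ := 1 - Real.log 2 / (4 * Real.log q)

/-- the points of the circle at distance at least `ρ / 2` from `pt w⁻¹`. -/
def good {Γ : Type} [Group Γ] (A : DiscRep Γ) (w : Γ) (ρ : ℝ) : Set ℂ :=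
  {ξ | ξ ∈ circ ∧ ρ / 2 ≤ ‖ξ - A.pt w⁻¹‖}

/-- the set at scale `t`. -/
def VT {Γ : Type} [Group Γ] (A : DiscRep Γ) (κ ρ t : ℝ) (U : Set ℂ) : Set ℂ :=
  ⋃ w : Γ, ⋃ _ : κ * t ≤ A.kk w ∧ A.kk w ≤ t, A.act w '' (U ∩ good A w ρ)

/-! ## Part 1: a lemma on `q`-adic arcs (independent of the group) -/

/-- D01 (short). Proof. Let `N ≥ 1` (`N = 0`: `half V 0 = circ`). The function
`g = ∑_{j < N} 1_{V j}` satisfies `2 g ≤ N + N 1_{half V N}` on the circle (`g ≤ N`; off `half V N`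
`2 g < N`). Integrate: `2 N (3/4) ≤ N + N ν (half V N)`. -/
def D01_stmt : Prop := ∀ (ν : Measure ℂ) (V : ℕ → Set ℂ) (N : ℕ), IsProbabilityMeasure ν →
  ν circᶜ = 0 → (∀ j, MeasurableSet (V j)) → (∀ j, 3 / 4 ≤ ν (V j)) →
  MeasurableSet (half V N) ∧ 1 / 2 ≤ ν (half V N)

/-- D02 (short/medium): basic properties of the arcs.
Proofs. (1) `ξ = exp(2π i x)` with `0 ≤ x < 1`, `k = ⌊x q^n⌋`. (2) if `x ∈ [k/q^(n+1), (k+1)/q^(n+1))` and
`k' = k / q` (natural division) then `k' q ≤ k` and `k + 1 ≤ (k' + 1) q`. (3) `x ↦ exp(2π i x)` is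
`2π`-Lipschitz. (4) `arcq ⊆ circ`. -/
def D02_stmt : Prop := ∀ q : ℕ, 1 ≤ q →
  (∀ n : ℕ, ∀ ξ ∈ circ, ∃ k < q ^ n, ξ ∈ arcq q n k) ∧
  (∀ n k : ℕ, arcq q (n + 1) k ⊆ arcq q n (k / q)) ∧
  (∀ n k : ℕ, ∀ ξ ∈ arcq q n k, ∀ η ∈ arcq q n k, ‖ξ - η‖ ≤ 2 * Real.pi / (q : ℝ) ^ n) ∧
  ∀ n k : ℕ, arcq q n k ⊆ circ

/-- D03 (medium). Uses D02. Proof. Induction on `N`. `N = 0`: `J = ∅`, `meet q 0 _ ⊆ range 1`. `N + 1`: let
`J' = J.erase N ⊆ range N`. If `k ∈ meet q (N+1) (⋂_J V j)` then `k' = k / q ∈ meet q N (⋂_{J'} V j)`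
(D02 (2)), `k = q k' + k % q`. So the fibre over `k'` of the map `k ↦ k / q` has at most `q` elements
(`k ↦ k % q` is injective on it), and if `N ∈ J` then `k % q ∈ chi q N k' (V N)`, so it has at most `q / 8`
elements. Hence `8 ^ |J| * card ≤ 8 ^ |J'| * card (meet q N (⋂_{J'})) * q ≤ q ^ N * q`
(`Finset.card_le_mul_card_image` or `card_eq_sum_card_fiberwise`). -/
def D03_stmt : Prop := ∀ (q : ℕ) (V : ℕ → Set ℂ), 1 ≤ q →
  (∀ j k, k < q ^ j → 8 * (chi q j k (V j)).card ≤ q) →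
  ∀ (N : ℕ) (J : Finset ℕ), J ⊆ Finset.range N →
    8 ^ J.card * (meet q N (⋂ j ∈ J, V j)).card ≤ q ^ N

/-- D04 (medium). Uses D03. Proof. `meet q N (half V N)` is contained in the union over the `J ⊆ range N`
with `N ≤ 2 |J|` of `meet q N (⋂_{j ∈ J} V j)` (take `J` = the filter in the definition). Let `c_J` be the
cardinality: `8 ^ |J| c_J ≤ q ^ N`, so `c_J ^ 2 * 8 ^ N ≤ c_J ^ 2 * 8 ^ (2 |J|) ≤ q ^ (2 N)`. There are at most
`2 ^ N` such `J`, so by Cauchy-Schwarz (`sq_sum_le_card_mul_sum_sq`)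
`(∑ c_J) ^ 2 * 8 ^ N ≤ 2 ^ N ∑ c_J ^ 2 8 ^ N ≤ 2 ^ N 2 ^ N q ^ (2 N)`, and `8 ^ N = 4 ^ N 2 ^ N`. -/
def D04_stmt : Prop := ∀ (q : ℕ) (V : ℕ → Set ℂ), 1 ≤ q →
  (∀ j k, k < q ^ j → 8 * (chi q j k (V j)).card ≤ q) →
  ∀ N : ℕ, (meet q N (half V N)).card ^ 2 * 2 ^ N ≤ (q ^ N) ^ 2

/-- D05 (medium). Uses D02. Proof. Let `d = expo q`; `log 2 / (4 log q) ≤ 1/4`, so `3/4 ≤ d < 1`, `q ^ d = q / 2 ^ (1/4)`.
`μH[d] (lsup S) = 0`, so `dimH ≤ d` (`dimH_le_of_hausdorffMeasure_ne_top`): use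
`Measure.hausdorffMeasure_le_liminf_tsum` with the index set `ℕ × ℕ`, `r n = 2π / q ^ n` and the covers
`t n (N, k) = arcq q N k` if `n ≤ N` and `k ∈ meet q N (S N)`, and `∅` otherwise. They cover `lsup S`
(D02 (1), `S N ⊆ circ`), the diameters are at most `2π / q ^ N` (D02 (3)), and
`∑ diam ^ d ≤ ∑_{N ≥ n} |meet q N (S N)| (2π) ^ d q ^ (-d N) ≤ 2π ∑_{N ≥ n} (q / √2) ^ N (2 ^ (1/4) / q) ^ N
= 2π ∑_{N ≥ n} 2 ^ (-N/4)`, which tends to `0`. -/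
def D05_stmt : Prop := ∀ (q : ℕ) (S : ℕ → Set ℂ), 2 ≤ q → (∀ N, S N ⊆ circ) →
  (∀ N, (meet q N (S N)).card ^ 2 * 2 ^ N ≤ (q ^ N) ^ 2) →
  dimH (lsup S) ≤ ENNReal.ofReal (expo q)

/-- D06 (short). Uses D01, D04, D05. Proof. `B = lsup (half V)`. `ν B ≥ 1/2`: the sets `⋃_{N ≥ n} half V N`
are decreasing in `n` with mass at least `1/2` (`tendsto_measure_iInter_atTop` or
`measure_iInter_eq_iInf`). -/
def D06_stmt : Prop := ∀ (q : ℕ) (V : ℕ → Set ℂ) (ν : Measure ℂ), 2 ≤ q → IsProbabilityMeasure ν →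
  ν circᶜ = 0 → (∀ j, MeasurableSet (V j)) → (∀ j, 3 / 4 ≤ ν (V j)) →
  (∀ j k, k < q ^ j → 8 * (chi q j k (V j)).card ≤ q) →
  ∃ B, MeasurableSet B ∧ 1 / 2 ≤ ν B ∧ dimH B ≤ ENNReal.ofReal (expo q)

/-- D07 (medium). Number of arcs which meet a set of diameter `d`.
Proof. If `E` is empty the number is `0`. Let `ξ₀ = e(x₀) ∈ E`, `0 ≤ x₀ < 1` (`e(x) = exp(2π i x)`). If
`k < q ^ n` and `arcq q n k` meets `E` in `e(x)`, `x ∈ [k/q^n, (k+1)/q^n) ⊆ [0, 1)`, then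
`|e(x) - e(x₀)| = 2 |sin (π (x - x₀))| ≤ d`, and `|sin (π y)| ≥ 2 |y - s|` for the integer `s ∈ {-1, 0, 1}` nearest to
`y = x - x₀` (`|y| < 1`; `Real.mul_abs_le_abs_sin` or concavity on `[0, π/2]`). So `|x - x₀ - s| ≤ d/4` and
`k ∈ (q^n (x₀ + s) - q^n d/4 - 1, q^n (x₀ + s) + q^n d/4]`, an interval with at most `q^n d/2 + 2` integers
(an interval `(a, b]` contains at most `b - a + 1` integers). Sum over the three `s`. -/
def D07_stmt : Prop := ∀ (q n : ℕ) (E : Set ℂ) (d : ℝ), 1 ≤ q → E ⊆ circ → 0 ≤ d →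
  (∀ ξ ∈ E, ∀ η ∈ E, ‖ξ - η‖ ≤ d) → ((meet q n E).card : ℝ) ≤ 3 / 2 * d * (q : ℝ) ^ n + 6

/-! ## Part 2: the sets `V_j` -/

/-- D08 (medium). Exit decomposition. Uses P05, P07, B01, B03, B14.
Proof. `D = {x | t < kk x}` is finite (B14 (3) with `τ = t`) and contains `1` (`kk 1 = 1`). `π w = exi D 1 w`. `∑' π = 1`
(P07). If `π w ≠ 0` then by P05 (3) `w ∉ D`, so `kk w ≤ t`, and (`1 ∈ D`, so `w ≠ 1`) `w = y s`, `kk y > t`,
`s ∈ S`, so `4 kk w ≥ kk y kk s ≥ t κ` (B03 (9)). For measurable `E` let `h x = ν (act x ⁻¹' E)`. It is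
harmonic: by stationarity `ν F = ∑ μ s * ν (act s ⁻¹' F)` (`Measure.map_apply`), for `F = act x ⁻¹' E`, and
`act s ⁻¹' F = act (x s) ⁻¹' E` on the closed disc, so up to a `ν`-null set (B01, `ν circᶜ = 0`). It is bounded
by `1`. P07 at `x = 1` (`act 1 = id` on the closed disc). -/
def D08_stmt : Prop := ∀ (Γ : Type) [Group Γ] [Infinite Γ] (A : DiscRep Γ) (W : Walk Γ)
  (ν : Measure ℂ) (κ t : ℝ), Stat A W ν → A.Discrete → 0 < κ → (∀ s ∈ W.S, κ ≤ A.kk s) →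
  0 < t → t < 1 → ∃ π : Γ → ℝ≥0∞, ∑' w, π w = 1 ∧
    (∀ w, π w ≠ 0 → κ / 4 * t ≤ A.kk w ∧ A.kk w ≤ t) ∧
    ∀ E, MeasurableSet E → ν E = ∑' w, π w * ν (A.act w ⁻¹' E)

/-- D09 (medium). Uses D08, B01, B14.
Proof. The union in `VT` is over a finite set of `w` (B14), `good A w ρ` is compact, `U` is closed, so each
`act w '' (U ∩ good)` is compact (`act w` is continuous on the closed disc), and `VT` is closed.
For `w` with `π w ≠ 0` (D08 with the same `κ`; the conditions in `VT (κ/4)` are exactly those of D08)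
`U ∩ good A w ρ ⊆ act w ⁻¹' VT`. The complement of `good` in the circle is contained in
`closedBall ξ ρ` for each of its points `ξ` (two points at distance `< ρ/2` from `pt w⁻¹`), so its `ν` mass is at most
`1/8` and `ν (U ∩ good) ≥ 7/8 - 1/8`. So `ν VT = ∑' π w ν (act w ⁻¹' VT) ≥ 3/4`. -/
def D09_stmt : Prop := ∀ (Γ : Type) [Group Γ] [Infinite Γ] (A : DiscRep Γ) (W : Walk Γ)
  (ν : Measure ℂ) (κ ρ t : ℝ) (U : Set ℂ), Stat A W ν → A.Discrete → 0 < κ →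
  (∀ s ∈ W.S, κ ≤ A.kk s) → 0 < ρ → (∀ ξ ∈ circ, ν (closedBall ξ ρ) ≤ 1 / 8) → 0 < t → t < 1 →
  IsClosed U → 7 / 8 ≤ ν U →
  MeasurableSet (VT A (κ / 4) ρ t U) ∧ 3 / 4 ≤ ν (VT A (κ / 4) ρ t U)

/-- D10 (medium/long). Number of children. Uses D02, D07, B01, B04, B07, B14.
Proof. `t = 1 / (2 q ^ j)`, `ζ = e(k / q ^ j) ∈ arcq q j k`, `M = 4 / κ + 15 / ρ`. Let `i ∈ chi q j k (VT ...)`: there is
`ξ ∈ arcq q (j+1) (q k + i) ⊆ arcq q j k` (D02 (2), `(q k + i) / q = k`), `ξ = act w η`, `η ∈ closedBall (c l) (r l)`,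
`η ∈ good A w ρ`, `(κ/4) t ≤ kk w ≤ t`. By B04 (1) `‖ξ - pt w‖ ≤ 2 t / ρ`, by D02 (3) `‖ξ - ζ‖ ≤ 2π / q^j = 4π t ≤ 13 t`. So
`‖pt w - ζ‖ ≤ (2/ρ + 13) t ≤ M t` (`ρ ≤ 1`), and `t / M ≤ kk w ≤ M t`: by B07 (with `τ = t`) these `w` form a finite set `F`
with at most `N₁` elements. For `w ∈ F` and `l < m` let `E = act w '' (closedBall (c l) (r l) ∩ good A w ρ)`. By B04 (3)
`‖act w η - act w η'‖ ≤ 4 kk w ‖η - η'‖ / ρ^2 ≤ 8 t r_l / ρ^2`. So D07 (generation `j + 1`, `t q^(j+1) = q/2`) bounds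
`|meet q (j+1) E|` by `(3/2) (8 r_l / ρ^2) (q/2) + 6 = 6 q r_l / ρ^2 + 6`. The map `i ↦ q k + i` sends `chi` injectively into the
union of the `meet q (j+1) E` (`q k + i < q^(j+1)`). Sum over `l` and `w`. -/
def D10_stmt : Prop := ∀ (Γ : Type) [Group Γ] (A : DiscRep Γ) (κ ρ : ℝ) (N₁ q m : ℕ)
  (c : Fin m → ℂ) (r : Fin m → ℝ), A.Discrete → 0 < κ → κ ≤ 1 → 0 < ρ → ρ ≤ 1 → 1 ≤ q →
  {γ | 1 / (9 * (4 / κ + 15 / ρ) ^ 4) ≤ A.kk γ}.ncard ≤ N₁ → (∀ l, 0 ≤ r l) →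
  ∀ j k : ℕ, k < q ^ j →
    ((chi q j k (VT A (κ / 4) ρ (1 / (2 * (q : ℝ) ^ j)) (⋃ l, closedBall (c l) (r l)))).card : ℝ) ≤
      N₁ * (6 * q * (∑ l, r l) / ρ ^ 2 + 6 * m)

/-- D11 (short/medium). MEAN POROSITY, uniform form. Uses D06, D09, D10.
Proof. `N₁ = N (1 / (9 (4/κ' + 15/ρ)^4))` with `κ' = min κ 1` (`κ' ≤ kk s` too), `ε₀ = ρ^2 / (96 (N₁ + 1))`,
`q = 96 m (N₁ + 1) + 2`, `δ = expo q < 1`. Apply D06 to `V j = VT A (κ'/4) ρ (1 / (2 q^j)) U`, `U = ⋃ closedBall (c l) (r l)`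
(closed, a finite union): D09 gives `3/4` (`0 < t ≤ 1/2`), D10 gives
`8 |chi| ≤ 8 N₁ (6 q ε₀ / ρ^2 + 6 m) ≤ q/2 + q/2`. -/
def D11_stmt : Prop := ∀ (κ ρ : ℝ) (N : ℝ → ℕ), 0 < κ → 0 < ρ → ρ ≤ 1 → ∃ ε₀ : ℝ, 0 < ε₀ ∧
  ∀ m : ℕ, ∃ δ : ℝ, 0 ≤ δ ∧ δ < 1 ∧ ∀ (Γ : Type) [Group Γ] [Infinite Γ] (A : DiscRep Γ)
    (W : Walk Γ) (ν : Measure ℂ) (c : Fin m → ℂ) (r : Fin m → ℝ), Stat A W ν → A.Discrete →
    (∀ s ∈ W.S, κ ≤ A.kk s) → (∀ τ : ℝ, 0 < τ → {γ | τ ≤ A.kk γ}.ncard ≤ N τ) →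
    (∀ ξ ∈ circ, ν (closedBall ξ ρ) ≤ 1 / 8) → (∀ l, 0 ≤ r l) → ∑ l, r l ≤ ε₀ →
    7 / 8 ≤ ν (⋃ l, closedBall (c l) (r l)) →
    ∃ B, MeasurableSet B ∧ 1 / 2 ≤ ν B ∧ dimH B ≤ ENNReal.ofReal δ

/-! ## Part 3: singular measures, saturation, the theorem for one representation -/

/-- D12 (medium). A measure on the circle which is singular to `lam` is almost carried by a finite union of
balls with small total radius. Uses B05.
Proof. There is a Borel set `Z` with `lam Z = 0` and `ν Zᶜ = 0`; there is a compact `K ⊆ Z ∩ circ` with `ν K ≥ 7/8` (inner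
regularity, `MeasurableSet.exists_isCompact_lt_add` for the finite measure `ν`). By B05 (5), or the definition of
`lam`, `P = {θ ∈ (0, 2π] | circleMap 0 1 θ ∈ K}` has Lebesgue measure `0`, i.e. `μH[1] P = 0`
(`hausdorffMeasure_real`), and `K = circleMap 0 1 '' P`, so `μH[1] K = 0` (`circleMap 0 1` is Lipschitz). By
`Measure.hausdorffMeasure_apply` (with `r = 1`, say) `K ⊆ ⋃ t_n` with `∑ (diam t_n) < ε / 2`; drop the empty ones, `c_n ∈ t_n`,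
`r_n = diam t_n + ε 2^(-n-2)`. The open balls `ball (c_n) (r_n)` cover `K`; take a finite subcover.
The statement is with open balls (for weak limits); `ball ⊆ closedBall`. -/
def D12_stmt : Prop := ∀ ν : Measure ℂ, IsProbabilityMeasure ν → ν circᶜ = 0 →
  Measure.MutuallySingular ν lam → ∀ ε : ℝ, 0 < ε → ∃ (m : ℕ) (c : Fin m → ℂ) (r : Fin m → ℝ),
    (∀ l, 0 < r l) ∧ ∑ l, r l ≤ ε ∧ 7 / 8 < ν (⋃ l, ball (c l) (r l))

/-- D13 (short/medium). Saturation. Uses B01, B02, B14.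
Proof. `B' = ⋃ γ, act γ '' (B ∩ circ)`. `act γ '' (B ∩ circ) = circ ∩ act γ⁻¹ ⁻¹' B` is measurable and `Γ` is countable (B14).
It is invariant (`act γ` maps the circle to the circle and `act (γ δ) = act γ ∘ act δ` there). `B ∩ circ ⊆ B'` (`γ = 1`).
`act γ` is Lipschitz on the circle (B02 (1) with `|1 - conj q z| ≥ 1 - |q| > 0`), so
`dimH (act γ '' (B ∩ circ)) ≤ dimH B` (`LipschitzOnWith.dimH_image_le`, `dimH_mono`), and `dimH_iUnion`. -/
def D13_stmt : Prop := ∀ (Γ : Type) [Group Γ] (A : DiscRep Γ) (ν : Measure ℂ) (B : Set ℂ),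
  A.Discrete → ν circᶜ = 0 → MeasurableSet B → ∃ B', MeasurableSet B' ∧ B' ⊆ circ ∧ ν B ≤ ν B' ∧
    (∀ γ, ∀ ξ ∈ circ, A.act γ ξ ∈ B' ↔ ξ ∈ B') ∧ dimH B' ≤ dimH B

/-- D14 (short/medium). Uniform smallness of balls. Proof. Otherwise there are `ξ_n ∈ circ` with
`ν (closedBall ξ_n (1/(n+1))) > ε`; a subsequence converges to `ξ ∈ circ`; every `closedBall ξ r` contains some
`closedBall ξ_n (1/(n+1))`, so `ν (closedBall ξ r) ≥ ε` for all `r > 0` and `ν {ξ} ≥ ε` (continuity from above). -/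
def D14_stmt : Prop := ∀ (ν : Measure ℂ) (ε : ℝ≥0∞), IsFiniteMeasure ν → ε ≠ 0 → (∀ ξ, ν {ξ} = 0) →
  ∃ ρ : ℝ, 0 < ρ ∧ ρ ≤ 1 ∧ ∀ ξ ∈ circ, ν (closedBall ξ ρ) ≤ ε

/-- D15 (short). One representation. Uses D11, D12, D13, D14, B14, B03.
Proof. D14 with `ε = 1/8` gives `ρ`; `κ = min` of `kk` over the finite support (positive by B03; if the support is empty take `1`,
it is not); `N τ = ncard {γ | τ ≤ kk γ}`; D11 gives `ε₀`; D12 with `ε₀` gives the balls; D11 gives `B`, D13 `B'` with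
`ν B' ≥ 1/2 > 0` invariant, so `ν B' = 1` by the hypothesis. -/
def D15_stmt : Prop := ∀ (Γ : Type) [Group Γ] [Infinite Γ] (A : DiscRep Γ) (W : Walk Γ)
  (ν : Measure ℂ), Stat A W ν → A.Discrete → (∀ ξ, ν {ξ} = 0) → Measure.MutuallySingular ν lam →
  (∀ E, MeasurableSet E → (∀ γ, ∀ ξ ∈ circ, A.act γ ξ ∈ E ↔ ξ ∈ E) → ν E = 0 ∨ ν E = 1) →
  ∃ δ : ℝ, 0 ≤ δ ∧ δ < 1 ∧ ∃ B, MeasurableSet B ∧ ν B = 1 ∧ dimH B ≤ ENNReal.ofReal δ

end Pool.Agent.SG
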