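import Pool.Agent.helper68.SG.SpecT

set_option autoImplicit false

open MeasureTheory Set Metric Filter Topology
open scoped ENNReal NNReal ComplexConjugate commutatorElement

namespace Pool.Agent.SG

lemma T03_surfRel (g : ℕ) : surfRel (g + 1) =
    ⁅FreeGroup.of ((0 : Fin (g + 1)), false), FreeGroup.of ((0 : Fin (g + 1)), true)⁆ *
      (List.ofFn fun i : Fin g =>
        ⁅FreeGroup.of (i.succ, false), FreeGroup.of (i.succ, true)⁆).prod := by
  rw [surfRel, List.ofFn_succ, List.prod_cons]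

lemma T03_gn1 (g : ℕ) (i : Fin (g + 1)) (b : Bool) (h : (i, b) ≠ (0, false)) :
    gn1 g i b = FreeGroup.of ⟨(i, b), h⟩ := by
  rw [gn1, dif_pos h]

lemma T03_succ_ne (g : ℕ) (i : Fin g) (b : Bool) : (i.succ, b) ≠ ((0 : Fin (g + 1)), false) := by
  intro h
  exact absurd (congrArg Prod.fst h) (Fin.succ_ne_zero i)

lemma T03_zero_ne (g : ℕ) : ((0 : Fin (g + 1)), true) ≠ ((0 : Fin (g + 1)), false) := by
  intro h
  exact absurd (congrArg Prod.snd h) (by simp)

lemma T03_aux (g : ℕ) (b c : FreeGroup (Gen1 g)) (hb : b = gn1 g 0 true)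
    (hc : c = (W1 g)⁻¹ * b) (φ : Subgroup.zpowers b ≃* Subgroup.zpowers c)
    (hφ : ∀ k : ℤ, ((φ ⟨b ^ k, ⟨k, rfl⟩⟩ : Subgroup.zpowers c) : FreeGroup (Gen1 g)) = c ^ k) :
    ∃ f : SurfaceGroup (g + 1) →* HNNExtension (FreeGroup (Gen1 g)) (Subgroup.zpowers b)
      (Subgroup.zpowers c) φ, Function.Injective f := by
  let E := HNNExtension (FreeGroup (Gen1 g)) (Subgroup.zpowers b) (Subgroup.zpowers c) φ
  let gen : Fin (g + 1) × Bool → E := fun x =>
    if h : x ≠ (0, false) then HNNExtension.of (FreeGroup.of (⟨x, h⟩ : Gen1 g)) else HNNExtension.t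
  have hgen0 : gen (0, false) = HNNExtension.t := by
    simp [gen]
  have hgen1 : ∀ (i : Fin (g + 1)) (s : Bool), (i, s) ≠ (0, false) →
      gen (i, s) = HNNExtension.of (gn1 g i s) := by
    intro i s h
    rw [T03_gn1 g i s h]
    simp only [gen]
    rw [dif_pos h]
  -- the map from the surface group
  have hrel : ∀ r ∈ ({surfRel (g + 1)} : Set (FreeGroup (Fin (g + 1) × Bool))),
      FreeGroup.lift gen r = 1 := by
    intro r hr
    rw [Set.mem_singleton_iff] at hr
    subst hr
    rw [T03_surfRel, map_mul, map_commutatorElement, FreeGroup.lift_apply_of,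
      FreeGroup.lift_apply_of, hgen0, hgen1 0 true (T03_zero_ne g), map_list_prod, List.map_ofFn]
    have h1 : (⇑(FreeGroup.lift gen) ∘ fun i : Fin g =>
        ⁅FreeGroup.of ((i.succ : Fin (g + 1)), false), FreeGroup.of ((i.succ : Fin (g + 1)), true)⁆) =
        (⇑(HNNExtension.of (G := FreeGroup (Gen1 g)) (A := Subgroup.zpowers b)
          (B := Subgroup.zpowers c) (φ := φ)) ∘ fun i : Fin g =>
          ⁅gn1 g i.succ false, gn1 g i.succ true⁆) := by
      funext i
      simp only [Function.comp]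
      rw [map_commutatorElement, map_commutatorElement, FreeGroup.lift_apply_of,
        FreeGroup.lift_apply_of, hgen1 _ _ (T03_succ_ne g i false), hgen1 _ _ (T03_succ_ne g i true)]
    rw [h1, ← List.map_ofFn, ← map_list_prod]
    have h2 : (List.ofFn fun i : Fin g => ⁅gn1 g i.succ false, gn1 g i.succ true⁆).prod = W1 g := rfl
    rw [h2]
    have h3 := HNNExtension.t_mul_of (φ := φ) ⟨b ^ (1 : ℤ), ⟨1, rfl⟩⟩
    have h4 := hφ 1
    rw [h4] at h3
    simp only [zpow_one] at h3
    have h6 : (HNNExtension.of c : HNNExtension (FreeGroup (Gen1 g)) (Subgroup.zpowers b)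
        (Subgroup.zpowers c) φ) = (HNNExtension.of (W1 g))⁻¹ * HNNExtension.of b := by
      rw [← map_inv, ← map_mul]
      exact congrArg _ hc
    rw [← hb, commutatorElement_def, h3, h6]
    group
  refine ⟨PresentedGroup.toGroup hrel, ?_⟩
  -- the map back
  let f0 : FreeGroup (Gen1 g) →* SurfaceGroup (g + 1) :=
    FreeGroup.lift fun x : Gen1 g => PresentedGroup.of x.1
  have hf0 : ∀ (i : Fin (g + 1)) (s : Bool), (i, s) ≠ (0, false) →
      f0 (gn1 g i s) = PresentedGroup.of (i, s) := by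
    intro i s h
    rw [T03_gn1 g i s h]
    simp only [f0]
    rw [FreeGroup.lift_apply_of]
  set a₁ : SurfaceGroup (g + 1) := PresentedGroup.of (0, false) with ha₁
  have hrel2 : a₁ * f0 b * a₁⁻¹ * (f0 b)⁻¹ * f0 (W1 g) = 1 := by
    have h1 : PresentedGroup.mk {surfRel (g + 1)}
        (⁅FreeGroup.of ((0 : Fin (g + 1)), false), FreeGroup.of ((0 : Fin (g + 1)), true)⁆ *
        (List.ofFn fun i : Fin g =>
        ⁅FreeGroup.of (i.succ, false), FreeGroup.of (i.succ, true)⁆).prod) = 1 := by
      have h0 : PresentedGroup.mk {surfRel (g + 1)} (surfRel (g + 1)) = 1 :=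
        PresentedGroup.one_of_mem (Set.mem_singleton _)
      have h00 := T03_surfRel g
      exact (congrArg (PresentedGroup.mk {surfRel (g + 1)}) h00.symm).trans h0
    rw [map_mul, map_commutatorElement, map_list_prod, List.map_ofFn] at h1
    have h2 : (⇑(PresentedGroup.mk {surfRel (g + 1)}) ∘ fun i : Fin g =>
        ⁅FreeGroup.of ((i.succ : Fin (g + 1)), false), FreeGroup.of ((i.succ : Fin (g + 1)), true)⁆) =
        (⇑f0 ∘ fun i : Fin g => ⁅gn1 g i.succ false, gn1 g i.succ true⁆) := by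
      funext i
      simp only [Function.comp]
      rw [map_commutatorElement, map_commutatorElement, hf0 _ _ (T03_succ_ne g i false),
        hf0 _ _ (T03_succ_ne g i true)]
      rfl
    rw [h2, ← List.map_ofFn, ← map_list_prod] at h1
    rw [hb, hf0 0 true (T03_zero_ne g)]
    exact h1
  have hconj : a₁ * f0 b * a₁⁻¹ = f0 c := by
    rw [hc, map_mul, map_inv]
    have h1 : a₁ * f0 b * a₁⁻¹ * (f0 b)⁻¹ = (f0 (W1 g))⁻¹ := eq_inv_of_mul_eq_one_left hrel2
    rw [← h1]
    group
  have hx : ∀ a : Subgroup.zpowers b, a₁ * f0 ↑a = f0 (φ a : FreeGroup (Gen1 g)) * a₁ := by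
    rintro ⟨a, k, hk⟩
    have hk' : b ^ k = a := hk
    subst hk'
    have h1 := hφ k
    have h5 : a₁ * f0 (b ^ k) = f0 (c ^ k) * a₁ := by
      rw [map_zpow, map_zpow, ← hconj, conj_zpow]
      group
    rw [← h1] at h5
    exact h5
  let F : E →* SurfaceGroup (g + 1) := HNNExtension.lift f0 a₁ hx
  have hFG : ∀ y, F (PresentedGroup.toGroup hrel y) = y := by
    have h1 : F.comp (PresentedGroup.toGroup hrel) = MonoidHom.id _ := by
      apply PresentedGroup.ext
      intro x
      rw [MonoidHom.comp_apply, PresentedGroup.toGroup.of, MonoidHom.id_apply]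
      by_cases h : x = (0, false)
      · subst h
        rw [hgen0]
        simp only [F]
        rw [HNNExtension.lift_t]
      · obtain ⟨i, s⟩ := x
        rw [hgen1 i s h]
        simp only [F]
        rw [HNNExtension.lift_of, hf0 i s h]
    intro y
    exact DFunLike.congr_fun h1 y
  exact Function.LeftInverse.injective hFG

theorem T03 (h2 : T02_stmt) : T03_stmt := by
  intro g
  obtain ⟨φ, hφ⟩ := h2 g
  exact ⟨_, _, φ, T03_aux g _ _ rfl rfl φ hφ⟩

end Pool.Agent.SG
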