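import Pool.Agent.helper80.SG.Spec

set_option autoImplicit false

namespace Pool.Agent.SG

open MvPolynomial Module Pool.Agent.SV

theorem TRN : TRN_stmt := by
  intro α β _ _ _ _ p q h
  classical
  have hα : Fintype.card (Fin (Fintype.card α * p)) = Fintype.card (α × Fin p) := by
    simp
  have hβ : Fintype.card (Fin (Fintype.card β * q)) = Fintype.card (β × Fin q) := by
    simp
  let E1 : Fin (Fintype.card α * p) ≃ α × Fin p := Fintype.equivOfCardEq hα
  let E2 : Fin (Fintype.card β * q) ≃ β × Fin q := Fintype.equivOfCardEq hβ
  refine ⟨fun γ => (E1 γ).1, fun γ => (E2 (Fin.castLE h γ)).1, ?_, ?_⟩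
  · intro a
    have h1 : (Finset.univ.filter (fun γ => (E1 γ).1 = a)).card = (Finset.univ : Finset (Fin p)).card := by
      refine Finset.card_bij' (fun γ _ => (E1 γ).2) (fun k _ => E1.symm (a, k)) ?_ ?_ ?_ ?_
      · intro γ _
        exact Finset.mem_univ _
      · intro k _
        simp
      · intro γ hγ
        rw [Finset.mem_filter] at hγ
        have : (a, (E1 γ).2) = E1 γ := by
          rw [← hγ.2]
        rw [this, Equiv.symm_apply_apply]
      · intro k _
        simp
    rw [h1]
    simp
  · intro b
    calc (Finset.univ.filter (fun γ => (E2 (Fin.castLE h γ)).1 = b)).card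
        ≤ (Finset.univ : Finset (Fin q)).card := by
          refine Finset.card_le_card_of_injOn (fun γ => (E2 (Fin.castLE h γ)).2)
            (fun _ _ => Finset.mem_coe.mpr (Finset.mem_univ _)) ?_
          intro γ hγ γ' hγ' he
          simp only [Finset.coe_filter, Finset.mem_univ, true_and] at hγ hγ'
          have h2 : E2 (Fin.castLE h γ) = E2 (Fin.castLE h γ') :=
            Prod.ext (hγ.trans hγ'.symm) he
          exact Fin.castLE_injective h (E2.injective h2)
      _ = q := by simp

end Pool.Agent.SG
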